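import Pool.Agent.W533.LP.Stm2

/-!
# LP-G8: asymptotics
-/

set_option autoImplicit false

namespace Pool.Agent.W612.LQ

open MeasureTheory ProbabilityTheory Filter Topology
open Pool.Agent.W533.LP

/-! ## path measures -/

lemma lev_lt {n : ℕ} (v : V n) : lev v + 1 < 2 * n := by
  unfold lev
  have h1 := v.1.2
  have h2 := v.2.2
  omega

lemma P_le_one {n : ℕ} (P : V n → ℝ) (hP : PathM P) (v : V n) : P v ≤ 1 := by
  rw [← hP.one (lev v) (lev_lt v)]
  have h := Finset.single_le_sum (f := fun w => if lev w = lev v then P w else 0)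
    (fun w _ => by
      show 0 ≤ if lev w = lev v then P w else 0
      split_ifs
      · exact hP.nn w
      · exact le_rfl) (Finset.mem_univ v)
  simpa using h

lemma sumP {n : ℕ} (P : V n → ℝ) (hP : PathM P) : ∑ v, P v ≤ 2 * n := by
  have h1 : ∑ v, P v = ∑ v, ∑ k ∈ Finset.range (2 * n - 1), if lev v = k then P v else 0 := by
    refine Finset.sum_congr rfl (fun v _ => ?_)
    rw [Finset.sum_ite_eq, if_pos]
    rw [Finset.mem_range]
    have := lev_lt v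
    omega
  rw [h1, Finset.sum_comm]
  have h2 : ∀ k ∈ Finset.range (2 * n - 1), (∑ v, if lev v = k then P v else 0) = 1 := by
    intro k hk
    rw [Finset.mem_range] at hk
    exact hP.one k (by omega)
  rw [Finset.sum_congr rfl h2, Finset.sum_const, Finset.card_range, nsmul_eq_mul, mul_one]
  have : ((2 * n - 1 : ℕ) : ℝ) ≤ ((2 * n : ℕ) : ℝ) := by
    exact_mod_cast Nat.sub_le _ _
  push_cast at this ⊢
  exact this

lemma sumP2 {n : ℕ} (P : V n → ℝ) (hP : PathM P) : ∑ v, P v ^ 2 ≤ 2 * n := by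
  refine le_trans (Finset.sum_le_sum (fun v _ => ?_)) (sumP P hP)
  have h1 := P_le_one P hP v
  have h2 := hP.nn v
  nlinarith

/-- pointwise bound of the tail -/
lemma point (hCone : GCone) {n R K L : ℕ} (y : V n → ℕ) (P p : V n → ℝ) (ρ H : ℝ) (hρ : 0 < ρ)
    (hP : PathM P) (hRn : R + 1 ≤ n)
    (hH : H = ∑ i ∈ Finset.range (R + 1), 1 / ((i : ℝ) + 1)) (hH0 : 0 < H)
    (hp0 : ∀ v, 0 ≤ p v) (hpP : ∀ v, L < y v → ρ * p v ≤ P v) :
    ∑ v, (if L < y v then p v ^ 2 else 0) ≤ 1 / ρ ^ 2 * (K / H * ∑ v, P v ^ 2 +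
      2 * n * Set.indicator {y : V n → ℕ | ∃ v', K <
        near (Finset.univ.filter (fun v => L < y v)) R v'} (fun _ => (1 : ℝ)) y) := by
  have h1 : ∑ v, (if L < y v then p v ^ 2 else 0) ≤
      1 / ρ ^ 2 * ∑ v ∈ Finset.univ.filter (fun v => L < y v), P v ^ 2 := by
    rw [← Finset.sum_filter, Finset.mul_sum]
    refine Finset.sum_le_sum (fun v hv => ?_)
    rw [Finset.mem_filter] at hv
    have h2 := hpP v hv.2
    have h3 := pow_le_pow_left₀ (mul_nonneg hρ.le (hp0 v)) h2 2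
    rw [mul_pow] at h3
    rw [one_div, ← div_eq_inv_mul, le_div_iff₀ (by positivity)]
    linarith
  refine h1.trans ?_
  apply mul_le_mul_of_nonneg_left _ (by positivity)
  have hs0 : 0 ≤ ∑ v, P v ^ 2 := Finset.sum_nonneg (fun v _ => sq_nonneg _)
  by_cases hbad : y ∈ {y : V n → ℕ | ∃ v', K <
      near (Finset.univ.filter (fun v => L < y v)) R v'}
  · rw [Set.indicator_of_mem hbad]
    have h4 : ∑ v ∈ Finset.univ.filter (fun v => L < y v), P v ^ 2 ≤ ∑ v, P v ^ 2 :=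
      Finset.sum_le_sum_of_subset_of_nonneg (Finset.filter_subset _ _)
        (fun v _ _ => sq_nonneg _)
    have h5 := sumP2 P hP
    have h6 : 0 ≤ (K : ℝ) / H * ∑ v, P v ^ 2 := by positivity
    linarith
  · rw [Set.indicator_of_notMem hbad, mul_zero, add_zero]
    have h7 : ∀ v', near (Finset.univ.filter (fun v => L < y v)) R v' ≤ K := by
      intro v'
      by_contra hcon
      push Not at hcon
      exact hbad ⟨v', hcon⟩
    have h8 := hCone n R K P _ hP hRn h7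
    rw [← hH] at h8
    rw [div_mul_eq_mul_div, le_div_iff₀ hH0]
    exact h8

instance discr (n : ℕ) : DiscreteMeasurableSpace (V n → ℕ) :=
  MeasurableSingletonClass.toDiscreteMeasurableSpace

lemma integ {n : ℕ} (q : ℝ) (hprob : IsProbabilityMeasure (muY q n)) (f : (V n → ℕ) → ℝ) (C : ℝ)
    (h : ∀ y, |f y| ≤ C) : Integrable f (muY q n) := by
  apply Integrable.of_bound (C := C) (Measurable.of_discrete).aestronglyMeasurable
  exact ae_of_all _ h

/-- bound of the integrated tail -/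
lemma tail_bd (hCone : GCone) {n R K L s : ℕ} (q ρ H : ℝ) (hprob : IsProbabilityMeasure (muY q n))
    (hρ : 0 < ρ) (Γ : (V n → ℕ) → ℕ → V n)
    (hM : ∀ y, PathM (Pp q ρ s Γ y)) (hRn : R + 1 ≤ n)
    (hH : H = ∑ i ∈ Finset.range (R + 1), 1 / ((i : ℝ) + 1)) (hH0 : 0 < H)
    (hpp0 : ∀ (y : V n → ℕ) (v : V n), 0 ≤ pp q ρ s y v (y v + s - 1))
    (hpP : ∀ (y : V n → ℕ) (v : V n), 1 ≤ y v + s →
      ρ * pp q ρ s y v (y v + s - 1) ≤ Pp q ρ s Γ y v) :
    ∫ y, ∑ v, (if L < y v then (pp q ρ s y v (y v + s - 1)) ^ 2 else 0) ∂(muY q n) ≤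
      1 / ρ ^ 2 * (K / H * ∑ v, ∫ y, (Pp q ρ s Γ y v) ^ 2 ∂(muY q n) +
        2 * n * (muY q n).real {y : V n → ℕ | ∃ v', K <
          near (Finset.univ.filter (fun v => L < y v)) R v'}) := by
  have hi1 : ∀ v, Integrable (fun y => (Pp q ρ s Γ y v) ^ 2) (muY q n) := by
    intro v
    apply integ q hprob _ 1
    intro y
    have h1 := P_le_one _ (hM y) v
    have h2 := (hM y).nn v
    rw [abs_of_nonneg (sq_nonneg _)]
    nlinarith
  obtain ⟨B, hB⟩ : ∃ B : Set (V n → ℕ), B = {y : V n → ℕ | ∃ v', K <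
    near (Finset.univ.filter (fun v => L < y v)) R v'} := ⟨_, rfl⟩
  have hi2 : Integrable (Set.indicator B (fun _ => (1 : ℝ))) (muY q n) := by
    apply integ q hprob _ 1
    intro y
    by_cases hy : y ∈ B
    · rw [Set.indicator_of_mem hy]; simp
    · rw [Set.indicator_of_notMem hy]; simp
  have hi3 : Integrable (fun y => 1 / ρ ^ 2 * (K / H * ∑ v, (Pp q ρ s Γ y v) ^ 2 +
      2 * n * Set.indicator B (fun _ => (1 : ℝ)) y)) (muY q n) := by
    apply Integrable.const_mul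
    apply Integrable.add
    · apply Integrable.const_mul
      exact integrable_finsetSum _ (fun v _ => hi1 v)
    · exact hi2.const_mul _
  have hle : ∫ y, ∑ v, (if L < y v then (pp q ρ s y v (y v + s - 1)) ^ 2 else 0) ∂(muY q n) ≤
      ∫ y, 1 / ρ ^ 2 * (K / H * ∑ v, (Pp q ρ s Γ y v) ^ 2 +
        2 * n * Set.indicator B (fun _ => (1 : ℝ)) y) ∂(muY q n) := by
    apply integral_mono_of_nonneg _ hi3
    · refine ae_of_all _ (fun y => ?_)
      rw [hB]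
      exact point hCone y (Pp q ρ s Γ y) (fun v => pp q ρ s y v (y v + s - 1)) ρ H hρ (hM y) hRn
        hH hH0 (hpp0 y) (fun v hv => hpP y v (by omega))
    · refine ae_of_all _ (fun y => ?_)
      show 0 ≤ ∑ v, (if L < y v then (pp q ρ s y v (y v + s - 1)) ^ 2 else 0)
      refine Finset.sum_nonneg (fun v _ => ?_)
      split_ifs
      · exact sq_nonneg _
      · exact le_rfl
  refine hle.trans (le_of_eq ?_)
  rw [integral_const_mul, integral_add, integral_const_mul, integral_const_mul,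
    integral_finsetSum _ (fun v _ => hi1 v), integral_indicator_const _ (MeasurableSet.of_discrete)]
  · rw [hB]
    simp
  · apply Integrable.const_mul
    exact integrable_finsetSum _ (fun v _ => hi1 v)
  · exact hi2.const_mul _

/-! ## numerical part -/

lemma num_bad (q lam η : ℝ) (n L R K : ℕ) (hn : 1 ≤ n) (hq : 0 < q) (hlam : lam = -Real.log q)
    (hlam0 : 0 < lam) (hη : 0 < η) (hL : η * Real.log n ≤ L) (hK : 8 / (lam * η) ≤ K)
    (hR : (R : ℝ) ≤ Real.exp (lam * L / 8)) (h9 : 9 ≤ Real.exp (lam * η * Real.log n / 4)) :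
    2 * (n : ℝ) * ((n : ℝ) ^ 2 * ((2 * (R : ℝ) + 1) ^ 2 * q ^ (L + 1)) ^ (K + 1)) ≤ 2 := by
  have hn1 : (1 : ℝ) ≤ n := by exact_mod_cast hn
  have hn0 : (0 : ℝ) < n := by linarith
  have hl0 : 0 ≤ Real.log n := Real.log_natCast_nonneg n
  have hL0 : (0 : ℝ) ≤ L := Nat.cast_nonneg L
  have hqe : q = Real.exp (-lam) := by rw [hlam, neg_neg, Real.exp_log hq]
  have he1 : 1 ≤ Real.exp (lam * L / 8) := Real.one_le_exp (by positivity)
  have h1 : (2 * (R : ℝ) + 1) ^ 2 ≤ 9 * Real.exp (lam * L / 4) := by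
    have h2 : 2 * (R : ℝ) + 1 ≤ 3 * Real.exp (lam * L / 8) := by linarith
    have h3 := pow_le_pow_left₀ (by positivity) h2 2
    refine h3.trans (le_of_eq ?_)
    rw [mul_pow, ← Real.exp_nat_mul]
    norm_num
    ring
  have h2 : q ^ (L + 1) ≤ Real.exp (-(lam * L)) := by
    rw [hqe, ← Real.exp_nat_mul]
    apply Real.exp_le_exp.mpr
    push_cast
    nlinarith
  have h9' : 9 ≤ Real.exp (lam * L / 4) := by
    refine h9.trans (Real.exp_le_exp.mpr ?_)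
    have := mul_le_mul_of_nonneg_left hL hlam0.le
    linarith
  have h3 : (2 * (R : ℝ) + 1) ^ 2 * q ^ (L + 1) ≤ Real.exp (-(lam * L / 2)) := by
    calc (2 * (R : ℝ) + 1) ^ 2 * q ^ (L + 1)
        ≤ 9 * Real.exp (lam * L / 4) * Real.exp (-(lam * L)) :=
          mul_le_mul h1 h2 (by positivity) (by positivity)
      _ ≤ Real.exp (lam * L / 4) * Real.exp (lam * L / 4) * Real.exp (-(lam * L)) := by
          gcongr
      _ = Real.exp (-(lam * L / 2)) := by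
          rw [← Real.exp_add, ← Real.exp_add]
          congr 1
          ring
  have h4 : ((2 * (R : ℝ) + 1) ^ 2 * q ^ (L + 1)) ^ (K + 1) ≤ Real.exp (-(4 * Real.log n)) := by
    have h5 := pow_le_pow_left₀ (by positivity) h3 (K + 1)
    refine h5.trans ?_
    rw [← Real.exp_nat_mul]
    apply Real.exp_le_exp.mpr
    push_cast
    have h6 : 8 / (lam * η) * (lam * (η * Real.log n)) ≤ K * (lam * L) := by
      apply mul_le_mul hK _ (by positivity) (Nat.cast_nonneg K)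
      exact mul_le_mul_of_nonneg_left hL hlam0.le
    have h7 : 8 / (lam * η) * (lam * (η * Real.log n)) = 8 * Real.log n := by
      field_simp
    have h8 : 0 ≤ lam * L := by positivity
    nlinarith
  have h5 : Real.exp (-(4 * Real.log n)) = 1 / (n : ℝ) ^ 4 := by
    rw [Real.exp_neg, one_div]
    congr 1
    have e : 4 * Real.log n = Real.log ((n : ℝ) ^ 4) := by
      rw [Real.log_pow]; norm_num
    rw [e, Real.exp_log (by positivity)]
  rw [h5] at h4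
  calc 2 * (n : ℝ) * ((n : ℝ) ^ 2 * ((2 * (R : ℝ) + 1) ^ 2 * q ^ (L + 1)) ^ (K + 1))
      ≤ 2 * (n : ℝ) * ((n : ℝ) ^ 2 * (1 / (n : ℝ) ^ 4)) := by gcongr
    _ = 2 / (n : ℝ) := by field_simp
    _ ≤ 2 := div_le_self (by norm_num) hn1

lemma harm_ge (R : ℕ) (x : ℝ) (hx : Real.exp x ≤ (R : ℝ) + 1) :
    x ≤ ∑ i ∈ Finset.range (R + 1), 1 / ((i : ℝ) + 1) := by
  have h1 := log_add_one_le_harmonic (R + 1)
  have h2 : ((harmonic (R + 1) : ℚ) : ℝ) = ∑ i ∈ Finset.range (R + 1), 1 / ((i : ℝ) + 1) := by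
    unfold harmonic
    push_cast
    refine Finset.sum_congr rfl (fun i _ => ?_)
    rw [one_div]
  rw [h2] at h1
  refine le_trans ?_ h1
  rw [Real.le_log_iff_exp_le (by positivity)]
  push_cast
  linarith

/-- the contradiction in the Falik-Samorodnitsky step -/
lemma num_fs (ε c A C M ℓ x η Vn VL S D : ℝ) (hε : 0 < ε) (hc : 0 < c)
    (hx : 1 ≤ x) (hℓ : ℓ = Real.log x) (hVn : c * x ^ (2 / 3 : ℝ) ≤ Vn)
    (hA : 0 ≤ A) (hS : S = max 1 (A * x ^ (3 / 5 : ℝ))) (hC : 0 ≤ C) (hM : M ≤ η * ℓ + 2)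
    (hη : C * η ≤ ε / 120) (hg : 2 * C < ε / 120 * ℓ)
    (hf : 1 + A ≤ ε * c / 2 * x ^ (1 / 30 : ℝ))
    (hFS : 0 < VL → VL * Real.log (VL / S) ≤ D * M) (hD : D ≤ C * Vn) (hM0 : 0 ≤ M) :
    VL ≤ ε / 2 * Vn := by
  by_contra hcon
  push Not at hcon
  have hx0 : 0 < x := by linarith
  have hVn0 : 0 < Vn := lt_of_lt_of_le (by positivity) hVn
  have hVL0 : 0 < VL := lt_trans (by positivity) hcon
  have h1 := hFS hVL0
  have hS0 : 0 < S := by rw [hS]; exact lt_of_lt_of_le one_pos (le_max_left _ _)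
  have hx35 : 1 ≤ x ^ (3 / 5 : ℝ) := Real.one_le_rpow hx (by norm_num)
  have hSle : S ≤ (1 + A) * x ^ (3 / 5 : ℝ) := by
    rw [hS]
    apply max_le
    · nlinarith [mul_nonneg hA (by linarith : (0 : ℝ) ≤ x ^ (3 / 5 : ℝ))]
    · nlinarith
  have hexp : x ^ (1 / 30 : ℝ) * (x ^ (3 / 5 : ℝ) * x ^ (1 / 30 : ℝ)) = x ^ (2 / 3 : ℝ) := by
    rw [← Real.rpow_add hx0, ← Real.rpow_add hx0]
    norm_num
  have hratio : x ^ (1 / 30 : ℝ) ≤ VL / S := by
    rw [le_div_iff₀ hS0]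
    have hx30 : 0 < x ^ (1 / 30 : ℝ) := Real.rpow_pos_of_pos hx0 _
    calc x ^ (1 / 30 : ℝ) * S ≤ x ^ (1 / 30 : ℝ) * ((1 + A) * x ^ (3 / 5 : ℝ)) :=
          mul_le_mul_of_nonneg_left hSle hx30.le
      _ = (1 + A) * (x ^ (1 / 30 : ℝ) * x ^ (3 / 5 : ℝ)) := by ring
      _ ≤ (ε * c / 2 * x ^ (1 / 30 : ℝ)) * (x ^ (1 / 30 : ℝ) * x ^ (3 / 5 : ℝ)) :=
          mul_le_mul_of_nonneg_right hf (by positivity)
      _ = ε / 2 * (c * (x ^ (1 / 30 : ℝ) * (x ^ (3 / 5 : ℝ) * x ^ (1 / 30 : ℝ)))) := by ring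
      _ = ε / 2 * (c * x ^ (2 / 3 : ℝ)) := by rw [hexp]
      _ ≤ ε / 2 * Vn := mul_le_mul_of_nonneg_left hVn (by positivity)
      _ ≤ VL := hcon.le
  have hlog : ℓ / 30 ≤ Real.log (VL / S) := by
    have h2 := Real.log_le_log (Real.rpow_pos_of_pos hx0 _) hratio
    rw [Real.log_rpow hx0, ← hℓ] at h2
    linarith
  have hℓ0 : 0 ≤ ℓ := by rw [hℓ]; exact Real.log_nonneg hx
  have h3 : VL * (ℓ / 30) ≤ D * M := (mul_le_mul_of_nonneg_left hlog hVL0.le).trans h1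
  have h4 : D * M ≤ C * Vn * (η * ℓ + 2) :=
    mul_le_mul hD hM hM0 (by positivity)
  have h5 : C * Vn * (η * ℓ + 2) = (C * η * ℓ + 2 * C) * Vn := by ring
  have h6 : (C * η * ℓ + 2 * C) < ε / 60 * ℓ := by
    have := mul_le_mul_of_nonneg_right hη hℓ0
    linarith
  have h7 : (C * η * ℓ + 2 * C) * Vn < ε / 60 * ℓ * Vn := mul_lt_mul_of_pos_right h6 hVn0
  have h8 : ε / 2 * Vn * (ℓ / 30) ≤ VL * (ℓ / 30) :=
    mul_le_mul_of_nonneg_right hcon.le (by positivity)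
  have h9 : ε / 2 * Vn * (ℓ / 30) = ε / 60 * ℓ * Vn := by ring
  linarith

/-! ## assembly -/

/-- one value of `n` -/
lemma step (q ρ ε η lam c Ck Ct Cp Cf Ce : ℝ) (s n K : ℕ) (hGCone : GCone) (hGBad : GBad)
    (hpar : Par q ρ s) (hε : 0 < ε) (hη : 0 < η) (hlam : lam = -Real.log q) (hlam0 : 0 < lam)
    (hc : 0 < c) (hCk : 0 < Ck) (hCt : 0 < Ct) (hCp : 0 < Cp) (hCf : 0 < Cf) (hCe : 0 < Ce)
    (hn : 1 ≤ n) (hK : 8 / (lam * η) ≤ K) (hℓ0 : 0 < Real.log n)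
    (hηC : Cf * Ce * η ≤ ε / 120)
    (h9 : 9 ≤ Real.exp (lam * η * Real.log n / 4))
    (hR : Real.exp (lam * (η * Real.log n + 1) / 8) + 1 ≤ n)
    (hg : 2 * (Cf * Ce) < ε / 120 * Real.log n)
    (hf : 1 + 4 / q ^ 2 * Ck ≤ ε * c / 2 * (n : ℝ) ^ (1 / 30 : ℝ))
    (hd : Ct * (1 / ρ ^ 2) * (Cp * Ce) * (K / (lam * η * Real.log n / 8)) ≤ ε / 4)
    (he : 2 * (Ct * (1 / ρ ^ 2)) ≤ ε / 4 * (c * (n : ℝ) ^ (2 / 3 : ℝ)))
    (hprob : IsProbabilityMeasure (muY q n))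
    (hV : c * (n : ℝ) ^ (2 / 3 : ℝ) ≤ variance (fun W : V n → ℕ => (Tc W : ℝ)) (muY q n))
    (hcov : ∑ v : V n, (cov[fun W : V n → ℕ => (Tc W : ℝ), fun W => (W v : ℝ); muY q n]) ^ 2
      ≤ Ck * (n : ℝ) ^ (3 / 5 : ℝ))
    (hE : ∑ v, ∫ y, (ph q ρ s y v) ^ 2 ∂(muY q n) ≤
      Ce * variance (fun W : V n → ℕ => (Tc W : ℝ)) (muY q n))
    (hVar : ∀ v : V n, ∫ y, (Dv q (gg q ρ s) v y) ^ 2 ∂(muY q n) ≤
      ∫ y, (ph q ρ s y v) ^ 2 ∂(muY q n))
    (hL1 : ∀ v : V n, ∫ y, |Dv q (gg q ρ s) v y| ∂(muY q n) ≤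
      2 / q * cov[fun W : V n → ℕ => (Tc W : ℝ), fun W => (W v : ℝ); muY q n])
    (hT : ∀ L : ℕ, variance (fun y : V n → ℕ => gg q ρ s y) (muY q n) ≤
      variance (fun y : V n → ℕ => gL q ρ s L y) (muY q n)
      + Ct * ∫ y, ∑ v, (if L < y v then (pp q ρ s y v (y v + s - 1)) ^ 2 else 0) ∂(muY q n))
    (Γ : (V n → ℕ) → ℕ → V n)
    (hP1 : ∀ (y : V n → ℕ) (v : V n), 1 ≤ y v + s →
      ρ * pp q ρ s y v (y v + s - 1) ≤ Pp q ρ s Γ y v)
    (hP2 : ∀ (y : V n → ℕ) (v : V n), 0 ≤ pp q ρ s y v (y v + s - 1))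
    (hP3 : ∑ v, ∫ y, (Pp q ρ s Γ y v) ^ 2 ∂(muY q n) ≤
      Cp * ∑ v, ∫ y, (ph q ρ s y v) ^ 2 ∂(muY q n))
    (hM : ∀ y, PathM (Pp q ρ s Γ y))
    (hFS : ∀ L : ℕ, ∀ S : ℝ, 0 < S →
      ∑ v, (∫ y, |Dv q (gg q ρ s) v y| ∂(muY q n)) ^ 2 ≤ S →
      0 < variance (fun y : V n → ℕ => gL q ρ s L y) (muY q n) →
      variance (fun y : V n → ℕ => gL q ρ s L y) (muY q n) *
      Real.log (variance (fun y : V n → ℕ => gL q ρ s L y) (muY q n) / S) ≤
      Cf * ((L : ℝ) + 1) * ∑ v, ∫ y, (Dv q (gg q ρ s) v y) ^ 2 ∂(muY q n)) :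
    variance (fun y : V n → ℕ => gg q ρ s y) (muY q n) ≤
      ε * variance (fun W : V n → ℕ => (Tc W : ℝ)) (muY q n) := by
  obtain ⟨hq0, hq1, hρ0, hρ1, hs⟩ := hpar
  have hn1 : (1 : ℝ) ≤ n := by exact_mod_cast hn
  obtain ⟨L, hL⟩ : ∃ L : ℕ, L = ⌈η * Real.log n⌉₊ := ⟨_, rfl⟩
  have hLlo : η * Real.log n ≤ L := by rw [hL]; exact Nat.le_ceil _
  have hLhi : (L : ℝ) ≤ η * Real.log n + 1 := by
    rw [hL]; exact (Nat.ceil_lt_add_one (by positivity)).le
  obtain ⟨R, hRd⟩ : ∃ R : ℕ, R = ⌊Real.exp (lam * L / 8)⌋₊ := ⟨_, rfl⟩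
  have hRle : (R : ℝ) ≤ Real.exp (lam * L / 8) := by
    rw [hRd]; exact Nat.floor_le (Real.exp_pos _).le
  have hRge : Real.exp (lam * L / 8) ≤ (R : ℝ) + 1 := by
    rw [hRd]; exact (Nat.lt_floor_add_one _).le
  have hRn : R + 1 ≤ n := by
    have h1 : Real.exp (lam * L / 8) ≤ Real.exp (lam * (η * Real.log n + 1) / 8) := by
      apply Real.exp_le_exp.mpr
      have := mul_le_mul_of_nonneg_left hLhi hlam0.le
      linarith
    have h2 : (R : ℝ) + 1 ≤ n := by linarith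
    exact_mod_cast h2
  obtain ⟨H, hH⟩ : ∃ H, H = ∑ i ∈ Finset.range (R + 1), 1 / ((i : ℝ) + 1) := ⟨_, rfl⟩
  have hHge : lam * η * Real.log n / 8 ≤ H := by
    have h1 := harm_ge R (lam * L / 8) hRge
    rw [← hH] at h1
    refine le_trans ?_ h1
    have := mul_le_mul_of_nonneg_left hLlo hlam0.le
    linarith
  have hlow : 0 < lam * η * Real.log n / 8 := by positivity
  have hH0 : 0 < H := lt_of_lt_of_le hlow hHge
  obtain ⟨Vn, hVn⟩ : ∃ Vn, Vn = variance (fun W : V n → ℕ => (Tc W : ℝ)) (muY q n) := ⟨_, rfl⟩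
  rw [← hVn] at hV hE ⊢
  have hVn0 : 0 < Vn := lt_of_lt_of_le (by positivity) hV
  -- the tail
  have htail := tail_bd hGCone (L := L) (K := K) q ρ H hprob hρ0 Γ hM hRn hH hH0 hP2 hP1
  have hbad := hGBad q hq0 hq1 n L R K
  have hnum := num_bad q lam η n L R K hn hq0 hlam hlam0 hη hLlo hK hRle h9
  have hbad2 : 2 * (n : ℝ) * (muY q n).real {y : V n → ℕ | ∃ v', K <
      near (Finset.univ.filter (fun v => L < y v)) R v'} ≤ 2 :=
    (mul_le_mul_of_nonneg_left hbad (by positivity)).trans hnum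
  have hPE : ∑ v, ∫ y, (Pp q ρ s Γ y v) ^ 2 ∂(muY q n) ≤ Cp * (Ce * Vn) :=
    hP3.trans (mul_le_mul_of_nonneg_left hE hCp.le)
  have hKH : (K : ℝ) / H ≤ K / (lam * η * Real.log n / 8) :=
    div_le_div_of_nonneg_left (Nat.cast_nonneg K) hlow hHge
  have hT1 : Ct * ∫ y, ∑ v, (if L < y v then (pp q ρ s y v (y v + s - 1)) ^ 2 else 0) ∂(muY q n)
      ≤ ε / 2 * Vn := by
    have h1 : ∫ y, ∑ v, (if L < y v then (pp q ρ s y v (y v + s - 1)) ^ 2 else 0) ∂(muY q n) ≤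
        1 / ρ ^ 2 * (K / (lam * η * Real.log n / 8) * (Cp * (Ce * Vn)) + 2) := by
      refine htail.trans ?_
      apply mul_le_mul_of_nonneg_left _ (by positivity)
      apply add_le_add _ hbad2
      calc (K : ℝ) / H * ∑ v, ∫ y, (Pp q ρ s Γ y v) ^ 2 ∂(muY q n)
          ≤ K / H * (Cp * (Ce * Vn)) := mul_le_mul_of_nonneg_left hPE (by positivity)
        _ ≤ K / (lam * η * Real.log n / 8) * (Cp * (Ce * Vn)) :=
          mul_le_mul_of_nonneg_right hKH (by positivity)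
    have h2 := mul_le_mul_of_nonneg_left h1 hCt.le
    have h3 : Ct * (1 / ρ ^ 2 * (K / (lam * η * Real.log n / 8) * (Cp * (Ce * Vn)) + 2)) =
        Ct * (1 / ρ ^ 2) * (Cp * Ce) * (K / (lam * η * Real.log n / 8)) * Vn +
          2 * (Ct * (1 / ρ ^ 2)) := by ring
    rw [h3] at h2
    have h4 := mul_le_mul_of_nonneg_right hd hVn0.le
    have h5 : ε / 4 * (c * (n : ℝ) ^ (2 / 3 : ℝ)) ≤ ε / 4 * Vn :=
      mul_le_mul_of_nonneg_left hV (by positivity)
    linarith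
  -- the Falik-Samorodnitsky step
  have hL2 : variance (fun y : V n → ℕ => gL q ρ s L y) (muY q n) ≤ ε / 2 * Vn := by
    apply num_fs ε c (4 / q ^ 2 * Ck) (Cf * Ce) ((L : ℝ) + 1) (Real.log n) n η Vn _
      (max 1 (4 / q ^ 2 * Ck * (n : ℝ) ^ (3 / 5 : ℝ)))
      (Cf * ∑ v, ∫ y, (Dv q (gg q ρ s) v y) ^ 2 ∂(muY q n)) hε hc hn1 rfl hV (by positivity) rfl
      (by positivity) (by linarith) hηC hg hf _ _ (by positivity)
    · intro hpos
      have hSle : ∑ v, (∫ y, |Dv q (gg q ρ s) v y| ∂(muY q n)) ^ 2 ≤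
          max 1 (4 / q ^ 2 * Ck * (n : ℝ) ^ (3 / 5 : ℝ)) := by
        refine le_trans ?_ (le_max_right _ _)
        have h1 : ∀ v : V n, (∫ y, |Dv q (gg q ρ s) v y| ∂(muY q n)) ^ 2 ≤ 4 / q ^ 2 *
            (cov[fun W : V n → ℕ => (Tc W : ℝ), fun W => (W v : ℝ); muY q n]) ^ 2 := by
          intro v
          have h2 : 0 ≤ ∫ y, |Dv q (gg q ρ s) v y| ∂(muY q n) :=
            integral_nonneg (fun y => abs_nonneg _)
          refine (pow_le_pow_left₀ h2 (hL1 v) 2).trans (le_of_eq ?_)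
          rw [mul_pow, div_pow]
          norm_num
        refine (Finset.sum_le_sum (fun v _ => h1 v)).trans ?_
        rw [← Finset.mul_sum, mul_assoc]
        exact mul_le_mul_of_nonneg_left hcov (by positivity)
      have h3 := hFS L _ (lt_of_lt_of_le one_pos (le_max_left _ _)) hSle hpos
      refine h3.trans (le_of_eq ?_)
      ring
    · have h1 : ∑ v, ∫ y, (Dv q (gg q ρ s) v y) ^ 2 ∂(muY q n) ≤ Ce * Vn :=
        (Finset.sum_le_sum (fun v _ => hVar v)).trans hE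
      calc Cf * ∑ v, ∫ y, (Dv q (gg q ρ s) v y) ^ 2 ∂(muY q n) ≤ Cf * (Ce * Vn) :=
            mul_le_mul_of_nonneg_left h1 hCf.le
        _ = Cf * Ce * Vn := by ring
  have := hT L
  linarith

theorem gMain (hGKpz : GKpz) (hGLaw : GLaw) (hGEnergy : GEnergy) (hGVar : GVar) (hGL1 : GL1)
    (hGTail : GTail) (hGPath : GPath) (hGPathM : GPathM) (hGCone : GCone) (hGBad : GBad)
    (hGFS : GFS) (hDGeod : DGeod) : GMain := by
  intro q ρ s hpar ε hε
  obtain ⟨hq0, hq1, hρ0, hρ1, hs⟩ := id hpar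
  obtain ⟨c, Ck, hc, hCk, n1, hKpz⟩ := hGKpz q hq0 hq1
  obtain ⟨Ct, hCt, hT⟩ := hGTail q hq0 hq1
  obtain ⟨Cp, hCp, hP⟩ := hGPath q ρ s hpar
  obtain ⟨Cf, hCf, hF⟩ := hGFS q hq0 hq1
  obtain ⟨Ce, hCe⟩ : ∃ Ce, Ce = 1 / ((1 - q) * ρ * (1 - ρ)) := ⟨_, rfl⟩
  have hCe0 : 0 < Ce := by
    rw [hCe]
    have h1 : 0 < 1 - q := by linarith
    have h2 : 0 < 1 - ρ := by linarith
    positivity
  obtain ⟨lam, hlam⟩ : ∃ lam, lam = -Real.log q := ⟨_, rfl⟩
  have hlam0 : 0 < lam := by rw [hlam]; linarith [Real.log_neg hq0 hq1]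
  obtain ⟨η, hη0, hη1, hη2⟩ : ∃ η : ℝ, 0 < η ∧ lam * η ≤ 4 ∧ Cf * Ce * η ≤ ε / 120 := by
    have hCC : 0 < Cf * Ce := by positivity
    refine ⟨min (4 / lam) (ε / 120 / (Cf * Ce)), lt_min (by positivity) (by positivity), ?_, ?_⟩
    · calc lam * min (4 / lam) (ε / 120 / (Cf * Ce)) ≤ lam * (4 / lam) :=
            mul_le_mul_of_nonneg_left (min_le_left _ _) hlam0.le
        _ = 4 := by field_simp
    · calc Cf * Ce * min (4 / lam) (ε / 120 / (Cf * Ce)) ≤ Cf * Ce * (ε / 120 / (Cf * Ce)) :=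
            mul_le_mul_of_nonneg_left (min_le_right _ _) hCC.le
        _ = ε / 120 := by field_simp
  obtain ⟨K, hK⟩ : ∃ K : ℕ, 8 / (lam * η) ≤ K := exists_nat_ge _
  -- large values
  have hcast : Tendsto (fun n : ℕ => (n : ℝ)) atTop atTop := tendsto_natCast_atTop_atTop
  have hlog : Tendsto (fun n : ℕ => Real.log n) atTop atTop := Real.tendsto_log_atTop.comp hcast
  have ev1 : ∀ᶠ n : ℕ in atTop, 0 < Real.log n := hlog.eventually_gt_atTop 0
  have ev2 : ∀ᶠ n : ℕ in atTop, 9 ≤ Real.exp (lam * η * Real.log n / 4) := by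
    have h1 : Tendsto (fun n : ℕ => lam * η * Real.log n / 4) atTop atTop := by
      have := (hlog.const_mul_atTop (by positivity : 0 < lam * η)).atTop_div_const
        (by norm_num : (0 : ℝ) < 4)
      exact this
    exact (Real.tendsto_exp_atTop.comp h1).eventually_ge_atTop 9
  have ev3 : ∀ᶠ n : ℕ in atTop, Real.exp (lam * (η * Real.log n + 1) / 8) + 1 ≤ n := by
    have h1 : Tendsto (fun x : ℝ => x ^ (1 / 2 : ℝ)) atTop atTop :=
      tendsto_rpow_atTop (by norm_num)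
    have h2 := (h1.comp hcast).eventually_ge_atTop (Real.exp (lam / 8) + 1)
    filter_upwards [h2, eventually_ge_atTop 1] with n hn hn1
    have hn1' : (1 : ℝ) ≤ n := by exact_mod_cast hn1
    have hn0 : (0 : ℝ) < n := by linarith
    simp only [Function.comp_apply] at hn
    have hl0 : 0 ≤ Real.log n := Real.log_natCast_nonneg n
    have h3 : Real.exp (lam * (η * Real.log n + 1) / 8) ≤
        Real.exp (lam / 8) * (n : ℝ) ^ (1 / 2 : ℝ) := by
      rw [Real.rpow_def_of_pos hn0, ← Real.exp_add]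
      apply Real.exp_le_exp.mpr
      have := mul_le_mul_of_nonneg_right hη1 hl0
      linarith
    have h4 : (n : ℝ) ^ (1 / 2 : ℝ) * (n : ℝ) ^ (1 / 2 : ℝ) = n := by
      rw [← Real.rpow_add hn0]; norm_num
    have h5 : 1 ≤ (n : ℝ) ^ (1 / 2 : ℝ) := Real.one_le_rpow hn1' (by norm_num)
    nlinarith
  have ev4 : ∀ᶠ n : ℕ in atTop, 2 * (Cf * Ce) < ε / 120 * Real.log n :=
    (hlog.const_mul_atTop (by positivity : 0 < ε / 120)).eventually_gt_atTop _
  have ev5 : ∀ᶠ n : ℕ in atTop,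
      1 + 4 / q ^ 2 * Ck ≤ ε * c / 2 * (n : ℝ) ^ (1 / 30 : ℝ) := by
    have h1 : Tendsto (fun x : ℝ => x ^ (1 / 30 : ℝ)) atTop atTop :=
      tendsto_rpow_atTop (by norm_num)
    exact ((h1.comp hcast).const_mul_atTop
      (by positivity : 0 < ε * c / 2)).eventually_ge_atTop _
  have ev6 : ∀ᶠ n : ℕ in atTop,
      Ct * (1 / ρ ^ 2) * (Cp * Ce) * (K / (lam * η * Real.log n / 8)) ≤ ε / 4 := by
    have h1 : Tendsto (fun n : ℕ => lam * η * Real.log n / 8) atTop atTop := by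
      have := (hlog.const_mul_atTop (by positivity : 0 < lam * η)).atTop_div_const
        (by norm_num : (0 : ℝ) < 8)
      exact this
    have h2 : Tendsto (fun n : ℕ => Ct * (1 / ρ ^ 2) * (Cp * Ce) *
        (K / (lam * η * Real.log n / 8))) atTop (𝓝 0) := by
      have := (h1.const_div_atTop (K : ℝ)).const_mul (Ct * (1 / ρ ^ 2) * (Cp * Ce))
      rwa [mul_zero] at this
    have h3 := (tendsto_order.mp h2).2 (ε / 4) (by positivity)
    filter_upwards [h3] with n hn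
    exact hn.le
  have ev7 : ∀ᶠ n : ℕ in atTop,
      2 * (Ct * (1 / ρ ^ 2)) ≤ ε / 4 * (c * (n : ℝ) ^ (2 / 3 : ℝ)) := by
    have h1 : Tendsto (fun x : ℝ => x ^ (2 / 3 : ℝ)) atTop atTop :=
      tendsto_rpow_atTop (by norm_num)
    exact (((h1.comp hcast).const_mul_atTop hc).const_mul_atTop
      (by positivity : 0 < ε / 4)).eventually_ge_atTop _
  have hall := ev1.and (ev2.and (ev3.and (ev4.and (ev5.and (ev6.and (ev7.and
    ((eventually_ge_atTop n1).and (eventually_ge_atTop 1))))))))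
  obtain ⟨n₀, hn₀⟩ := eventually_atTop.mp hall
  refine ⟨n₀, fun n hn => ?_⟩
  obtain ⟨g1, g2, g3, g4, g5, g6, g7, g8, g9⟩ := hn₀ n hn
  obtain ⟨Γ, hΓ⟩ := hDGeod n g9
  obtain ⟨hP1, hP2, hP3⟩ := hP n Γ hΓ
  have hEn := hGEnergy q ρ s hpar n
  rw [← hCe] at hEn
  exact step q ρ ε η lam c Ck Ct Cp Cf Ce s n K hGCone hGBad hpar hε hη0 hlam hlam0 hc hCk hCt
    hCp hCf hCe0 g9 hK g1 hη2 g2 g3 g4 g5 g6 g7 (hGLaw q ρ s hpar n).1 (hKpz n g8).1 (hKpz n g8).2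
    hEn.2 (fun v => (hGVar q ρ s hpar n v).2) (hGL1 q ρ s hpar n)
    (fun L => (hT ρ s hpar n L).2) Γ hP1 hP2 hP3 (hGPathM q ρ s hpar n Γ hΓ)
    (fun L S => hF ρ s hpar n L S)

end Pool.Agent.W612.LQ
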